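import Pool.Agent.N90.TD.Hodge
import Pool.Agent.N90.UB.Rel
import Pool.Agent.R401.Iso

/-!
# Generation of the Tate classes and of the Hodge classes
-/

set_option autoImplicit false
set_option linter.unusedSectionVars false

namespace Pool.Agent.N90.TD

open NumberField Module Equiv Pool.Agent.H204R3.CM Pool.Agent.H977R3.CM Pool.Agent.W546.GHC
  Pool.Agent.W547.KB Pool.Agent.W530.NF Pool.Agent.N90.HG
open scoped TensorProduct

noncomputable section

variable {p a : ℕ} [Fact p.Prime] {ι : Type} [Fintype ι] {E : ι → Type} [∀ i, Field (E i)]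
  [∀ i, NumberField (E i)] [∀ i, IsCMField (E i)] {π : ∀ i, E i}
  (hπ : IsOrdinaryFamily p a E π) (ν : PadicAlgCl p ≃+* ℂ)

include hπ ν in
theorem exists_closure [Nonempty ι] :
    ∃ (L : Type) (_ : Field L) (_ : NumberField L) (_ : IsGalois ℚ L)
      (j : L →+* ℂ), ∀ i, ∀ ψ : E i →+* ℂ, ∃ φ : E i →+* L, j.comp φ = ψ := by
  obtain ⟨L, i1, i2, _, i3, j, h⟩ := exists_cm
    ⟨ι, fun i => ⟨E i, typ π ν i, isCMType_typ hπ ν i⟩⟩
  exact ⟨L, i1, i2, i3, j, h⟩

include hπ in
theorem tate_iff_hodge [Nonempty ι] {J : Type} [Fintype J] (t : J → ι) {κ : Type} [Fintype κ]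
    [DecidableEq κ] (m : ℕ) (hm : Fintype.card κ = 2 * m) (f : (∀ b, E (t b)) [⋀^κ]→ₗ[ℚ] ℚ) :
    IsTate (F0 π t) (p ^ a) m f ↔ IsHodge (per (typ π ν) t) f := by
  obtain ⟨L, _, _, _, j, h⟩ := exists_closure hπ ν
  exact ⟨hodge_of_tate hπ ν t m hm f, tate_of_hodge hπ ν j h t m hm f⟩

include hπ in
/-- The Tate classes of degree `2 m` are generated by divisors if and only if this holds for the
Hodge classes of the canonical lift. -/
theorem generated_iff_deg [Nonempty ι] {J : Type} [Fintype J] (t : J → ι) (m : ℕ) :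
    TateGeneratedIn (F0 π t) (p ^ a) m ↔ ∀ f : (∀ b, E (t b)) [⋀^Fin m × Fin 2]→ₗ[ℚ] ℚ,
      IsHodge (per (typ π ν) t) f → f ∈ Submodule.span ℚ (wedgeSet (per (typ π ν) t) m) := by
  have hw : wedges (F0 π t) (p ^ a) m = wedgeSet (per (typ π ν) t) m := by
    ext g
    constructor
    · rintro ⟨B, hB, hg⟩
      exact ⟨B, fun l => (tate_iff_hodge hπ ν t 1 (by simp) (B l)).1 (hB l), hg⟩
    · rintro ⟨B, hB, hg⟩
      exact ⟨B, fun l => (tate_iff_hodge hπ ν t 1 (by simp) (B l)).2 (hB l), hg⟩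
  have hcard : Fintype.card (Fin m × Fin 2) = 2 * m := by
    rw [Fintype.card_prod, Fintype.card_fin, Fintype.card_fin, mul_comm]
  constructor
  · intro h f hf
    rw [← hw]
    exact h f ((tate_iff_hodge hπ ν t m hcard f).2 hf)
  · intro h f hf
    rw [hw]
    exact h f ((tate_iff_hodge hπ ν t m hcard f).1 hf)

include hπ in
/-- The Tate classes are generated by divisors if and only if this holds for the Hodge classes of
the canonical lift. -/
theorem generated_iff [Nonempty ι] {J : Type} [Fintype J] (t : J → ι) :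
    TateGenerated (F0 π t) (p ^ a) ↔ HodgeGenerated (per (typ π ν) t) :=
  forall_congr' fun m => generated_iff_deg hπ ν t m

include hπ in
/-- **The upper bound.** -/
theorem upper [Nonempty ι] {g N : ℕ} (hg : ∑ i, finrank ℚ (E i) = 2 * g)
    (hN : (g - 1) ^ (g - 1) < 4 ^ (g - 2) * (N + 1) ^ 2)
    (K : Type) [Field K] [CharZero K] {J : Type} [Fintype J] (t : J → ι)
    (ht : ∀ i, ∃ e : Fin N → J, Function.Injective e ∧ ∀ k, t (e k) = i)
    (h : TateGenerated (frob K π t) (p ^ a)) (K' : Type) [Field K'] [CharZero K']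
    {J' : Type} [Fintype J'] (t' : J' → ι) : TateGenerated (frob K' π t') (p ^ a) := by
  classical
  obtain ⟨ν⟩ := Pool.Agent.R401.Iso.exists_iso p
  apply generated_up
  change TateGenerated (F0 π t') (p ^ a)
  · have h1 : TateGenerated (F0 π t) (p ^ a) := generated_down _ _ h
    rw [generated_iff hπ ν] at h1 ⊢
    obtain ⟨L, _, _, _, j, hL⟩ := exists_closure hπ ν
    have hg1 : 1 ≤ g := by
      obtain ⟨i⟩ := ‹Nonempty ι›
      have h2 : finrank ℚ (E i) ≤ ∑ i, finrank ℚ (E i) :=
        Finset.single_le_sum (f := fun i => finrank ℚ (E i)) (fun _ _ => Nat.zero_le _)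
          (Finset.mem_univ i)
      have h3 : 0 < finrank ℚ (E i) := finrank_pos
      omega
    obtain ⟨k, rfl⟩ : ∃ k, g = k + 1 := ⟨g - 1, by omega⟩
    refine Pool.Agent.N90.UB.generated_of_generated (isCMType_typ hπ ν) j t t'
      (separated_typ hπ ν j hL) hL hg (N := N) ?_ (fun i => ?_) h1
    · simpa using hN
    · obtain ⟨e, he, hte⟩ := ht i
      unfold mult
      calc N = (Finset.univ : Finset (Fin N)).card := (Finset.card_fin N).symm
        _ = (Finset.univ.image e).card := (Finset.card_image_of_injective _ he).symm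
        _ ≤ _ := Finset.card_le_card fun b hb => by
            obtain ⟨k, _, rfl⟩ := Finset.mem_image.1 hb
            exact Finset.mem_filter.2 ⟨Finset.mem_univ _, hte k⟩

end

end Pool.Agent.N90.TD
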