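import Pool.Agent.N90.TD.Ext

/-!
# Generation by divisors does not depend on the field of coefficients
-/

set_option autoImplicit false
set_option linter.unusedSectionVars false

namespace Pool.Agent.N90.TD

open Module Equiv Pool.Agent.H204R3.CM
open scoped TensorProduct

noncomputable section

section wedge

variable {R V : Type} [Field R] [AddCommGroup V] [Module R V] {m : ℕ}

theorem alt_sum_apply {n β : Type} (s : Finset β) (f : β → V [⋀^n]→ₗ[R] R) (v : n → V) :
    (∑ b ∈ s, f b) v = ∑ b ∈ s, f b v := by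
  classical
  induction s using Finset.induction_on with
  | empty => simp
  | insert b s hb ih =>
    rw [Finset.sum_insert hb, Finset.sum_insert hb, AlternatingMap.add_apply, ih]

/-- the wedge product of forms of degree two -/
def wedgeOf (B : Fin m → V [⋀^Fin 2]→ₗ[R] R) : V [⋀^Fin m × Fin 2]→ₗ[R] R :=
  MultilinearMap.alternatization (prodMap (fun s => (B s).toMultilinearMap))

theorem wedgeOf_apply (B : Fin m → V [⋀^Fin 2]→ₗ[R] R) (v : Fin m × Fin 2 → V) :
    wedgeOf B v = ∑ σ : Perm (Fin m × Fin 2), ((Perm.sign σ : ℤ) : R) *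
      ∏ l, B l ![v (σ (l, 0)), v (σ (l, 1))] := by
  unfold wedgeOf
  rw [MultilinearMap.alternatization_apply]
  refine Finset.sum_congr rfl fun σ _ => ?_
  rw [Units.smul_def, zsmul_eq_mul, MultilinearMap.domDomCongr_apply, prodMap_apply]
  congr 1
  refine Finset.prod_congr rfl fun s _ => ?_
  change B s _ = _
  congr 1
  funext ε
  fin_cases ε <;> rfl

theorem mem_wedges_iff (F : V →ₗ[R] V) (q : ℕ) (g : V [⋀^Fin m × Fin 2]→ₗ[R] R) :
    g ∈ wedges F q m ↔ ∃ B : Fin m → V [⋀^Fin 2]→ₗ[R] R, (∀ l, IsTate F q 1 (B l)) ∧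
      g = wedgeOf B := by
  constructor
  · rintro ⟨B, hB, hg⟩
    exact ⟨B, hB, AlternatingMap.ext fun v => by rw [hg, wedgeOf_apply]⟩
  · rintro ⟨B, hB, rfl⟩
    exact ⟨B, hB, fun v => wedgeOf_apply B v⟩

end wedge

variable {K : Type} [Field K] [CharZero K] {W : Type} [AddCommGroup W] [Module ℚ W]
  [FiniteDimensional ℚ W] (F₀ : W →ₗ[ℚ] W) (q : ℕ)

theorem pow_baseChange (s : ℕ) (w : W) :
    ((F₀.baseChange K) ^ s) (1 ⊗ₜ[ℚ] w) = 1 ⊗ₜ[ℚ] ((F₀ ^ s) w) := by
  induction s with
  | zero => rfl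
  | succ s ih =>
    rw [pow_succ', Module.End.mul_apply, ih, pow_succ', Module.End.mul_apply,
      LinearMap.baseChange_tmul]

theorem isTate_iff_res {κ : Type} [Finite κ] (m : ℕ) (f : (K ⊗[ℚ] W) [⋀^κ]→ₗ[K] K) :
    IsTate (F₀.baseChange K) q m f ↔ ∃ s : ℕ, 0 < s ∧ ∀ w : κ → W,
      res f (fun k => (F₀ ^ s) (w k)) = (q : K) ^ (m * s) * res f w := by
  constructor
  · rintro ⟨s, hs, h⟩
    refine ⟨s, hs, fun w => ?_⟩
    have h1 := h (fun k => 1 ⊗ₜ[ℚ] w k)
    simp only [pow_baseChange] at h1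
    exact h1
  · rintro ⟨s, hs, h⟩
    refine ⟨s, hs, fun v => ?_⟩
    have h1 : f.compLinearMap ((F₀.baseChange K) ^ s) = ((q : K) ^ (m * s)) • f := by
      apply res_inj
      intro w
      rw [res_apply, res_apply, AlternatingMap.compLinearMap_apply, AlternatingMap.smul_apply]
      simp only [pow_baseChange, smul_eq_mul]
      exact h w
    have h2 := congrArg (fun g => g v) h1
    exact h2

theorem res_add {n : Type} (G G' : (K ⊗[ℚ] W) [⋀^n]→ₗ[K] K) (w : n → W) :
    res (G + G') w = res G w + res G' w := rfl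

theorem res_smul {n : Type} (a : K) (G : (K ⊗[ℚ] W) [⋀^n]→ₗ[K] K) (w : n → W) :
    res (a • G) w = a * res G w := rfl

/-- the extension of a rational form -/
theorem exists_ext_rat {n : Type} [Fintype n] [DecidableEq n] (g : W [⋀^n]→ₗ[ℚ] ℚ) :
    ∃ G : (K ⊗[ℚ] W) [⋀^n]→ₗ[K] K, ∀ w, res G w = ((g w : ℚ) : K) := by
  obtain ⟨G, hG⟩ := exists_ext (K := K) ((Algebra.linearMap ℚ K).compAlternatingMap g)
  refine ⟨G, fun w => ?_⟩
  rw [hG, LinearMap.compAlternatingMap_apply, Algebra.linearMap_apply, eq_ratCast]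

theorem isTate_ext {n : Type} [Finite n] (m : ℕ) (g : W [⋀^n]→ₗ[ℚ] ℚ)
    (G : (K ⊗[ℚ] W) [⋀^n]→ₗ[K] K) (hG : ∀ w, res G w = ((g w : ℚ) : K))
    (hg : IsTate F₀ q m g) : IsTate (F₀.baseChange K) q m G := by
  obtain ⟨s, hs, h⟩ := hg
  rw [isTate_iff_res]
  refine ⟨s, hs, fun w => ?_⟩
  rw [hG, hG, h]
  push_cast
  rfl

theorem isTate_component {n : Type} [Finite n] (m : ℕ) (G : (K ⊗[ℚ] W) [⋀^n]→ₗ[K] K)
    (hG : IsTate (F₀.baseChange K) q m G) (l : K →ₗ[ℚ] ℚ) :
    IsTate F₀ q m (l.compAlternatingMap (res G)) := by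
  rw [isTate_iff_res] at hG
  obtain ⟨s, hs, h⟩ := hG
  refine ⟨s, hs, fun w => ?_⟩
  rw [LinearMap.compAlternatingMap_apply, LinearMap.compAlternatingMap_apply, h]
  have h1 : (q : K) ^ (m * s) * res G w = ((q : ℚ) ^ (m * s)) • res G w := by
    rw [Algebra.smul_def, eq_ratCast]
    push_cast
    rfl
  rw [h1, map_smul, smul_eq_mul]

theorem ext_mem_span {m : ℕ} (h : W [⋀^Fin m × Fin 2]→ₗ[ℚ] ℚ)
    (hh : h ∈ Submodule.span ℚ (wedges F₀ q m)) (G : (K ⊗[ℚ] W) [⋀^Fin m × Fin 2]→ₗ[K] K)
    (hG : ∀ w, res G w = ((h w : ℚ) : K)) :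
    G ∈ Submodule.span K (wedges (F₀.baseChange K) q m) := by
  induction hh using Submodule.span_induction generalizing G with
  | mem h hh =>
    rw [mem_wedges_iff] at hh
    obtain ⟨B, hB, rfl⟩ := hh
    have h1 := fun l => exists_ext_rat (K := K) (B l)
    choose B' hB' using h1
    have h2 : G = wedgeOf B' := by
      apply res_inj
      intro w
      rw [hG, wedgeOf_apply, res_apply, wedgeOf_apply]
      push_cast
      refine Finset.sum_congr rfl fun σ _ => ?_
      congr 1
      refine Finset.prod_congr rfl fun l _ => ?_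
      rw [← hB' l, res_apply]
      congr 1
      funext ε
      fin_cases ε <;> rfl
    rw [h2]
    refine Submodule.subset_span ((mem_wedges_iff _ _ _).2 ⟨B', fun l => ?_, rfl⟩)
    exact isTate_ext F₀ q 1 (B l) (B' l) (hB' l) (hB l)
  | zero =>
    have h2 : G = 0 := by
      apply res_inj
      intro w
      rw [hG]
      simp [res_apply]
    rw [h2]
    exact Submodule.zero_mem _
  | add h₁ h₂ _ _ ih₁ ih₂ =>
    obtain ⟨G₁, hG₁⟩ := exists_ext_rat (K := K) h₁
    obtain ⟨G₂, hG₂⟩ := exists_ext_rat (K := K) h₂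
    have h2 : G = G₁ + G₂ := by
      apply res_inj
      intro w
      rw [hG, res_add, hG₁, hG₂, AlternatingMap.add_apply, Rat.cast_add]
    rw [h2]
    exact Submodule.add_mem _ (ih₁ G₁ hG₁) (ih₂ G₂ hG₂)
  | smul a h₁ _ ih₁ =>
    obtain ⟨G₁, hG₁⟩ := exists_ext_rat (K := K) h₁
    have h2 : G = ((a : ℚ) : K) • G₁ := by
      apply res_inj
      intro w
      rw [hG, res_smul, hG₁, AlternatingMap.smul_apply, smul_eq_mul, Rat.cast_mul]
    rw [h2]
    exact Submodule.smul_mem _ _ (ih₁ G₁ hG₁)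

/-- Generation over `ℚ` implies generation over all fields. -/
theorem generated_up_deg {m : ℕ} (h : TateGeneratedIn F₀ q m) :
    TateGeneratedIn (F₀.baseChange K) q m := by
  intro f hf
  obtain ⟨d, c, l, hcl⟩ := exists_components (res f)
  have h1 := fun i => exists_ext_rat (K := K) ((l i).compAlternatingMap (res f))
  choose G hG using h1
  have h2 : f = ∑ i, c i • G i := by
    apply res_inj
    intro w
    rw [hcl w, res_apply (∑ i, c i • G i), alt_sum_apply]
    refine Finset.sum_congr rfl fun i _ => ?_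
    rw [AlternatingMap.smul_apply, ← res_apply, hG, LinearMap.compAlternatingMap_apply,
      smul_eq_mul]
  rw [h2]
  refine Submodule.sum_mem _ fun i _ => Submodule.smul_mem _ _ ?_
  exact ext_mem_span F₀ q _ (h _ (isTate_component F₀ q m f hf (l i))) _ (hG i)

theorem generated_up (h : TateGenerated F₀ q) : TateGenerated (F₀.baseChange K) q :=
  fun m => generated_up_deg F₀ q (h m)

theorem component_mem_span {m : ℕ} (G : (K ⊗[ℚ] W) [⋀^Fin m × Fin 2]→ₗ[K] K)
    (hG : G ∈ Submodule.span K (wedges (F₀.baseChange K) q m)) (l : K →ₗ[ℚ] ℚ) :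
    l.compAlternatingMap (res G) ∈ Submodule.span ℚ (wedges F₀ q m) := by
  classical
  induction hG using Submodule.span_induction generalizing l with
  | mem G hG =>
    rw [mem_wedges_iff] at hG
    obtain ⟨B, hB, rfl⟩ := hG
    have h1 := fun k => exists_components (res (B k))
    choose d c lam hcl using h1
    have h2 : l.compAlternatingMap (res (wedgeOf B)) =
        ∑ r : (∀ k, Fin (d k)), l (∏ k, c k (r k)) •
          wedgeOf (fun k => (lam k (r k)).compAlternatingMap (res (B k))) := by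
      ext w
      rw [alt_sum_apply, LinearMap.compAlternatingMap_apply]
      have h3 : res (wedgeOf B) w = ∑ r : (∀ k, Fin (d k)),
          ((wedgeOf (fun k => (lam k (r k)).compAlternatingMap (res (B k))) w : ℚ) : K) *
            ∏ k, c k (r k) := by
        rw [res_apply, wedgeOf_apply]
        have h4 : ∀ σ : Perm (Fin m × Fin 2), ∏ k, B k ![(1 : K) ⊗ₜ[ℚ] w (σ (k, 0)),
            (1 : K) ⊗ₜ[ℚ] w (σ (k, 1))] = ∑ r : (∀ k, Fin (d k)), ∏ k, (c k (r k) *
              ((lam k (r k) (res (B k) ![w (σ (k, 0)), w (σ (k, 1))]) : ℚ) : K)) := by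
          intro σ
          have h5 : ∀ k, B k ![(1 : K) ⊗ₜ[ℚ] w (σ (k, 0)), (1 : K) ⊗ₜ[ℚ] w (σ (k, 1))] =
              res (B k) ![w (σ (k, 0)), w (σ (k, 1))] := by
            intro k
            rw [res_apply]
            congr 1
            funext ε
            fin_cases ε <;> rfl
          rw [Finset.prod_congr rfl (fun k _ => (h5 k).trans (hcl k _)), Finset.prod_univ_sum,
            Fintype.piFinset_univ]
        rw [Finset.sum_congr rfl (fun σ _ => by rw [h4 σ, Finset.mul_sum]), Finset.sum_comm]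
        refine Finset.sum_congr rfl fun r _ => ?_
        rw [wedgeOf_apply]
        push_cast
        rw [Finset.sum_mul]
        refine Finset.sum_congr rfl fun σ _ => ?_
        rw [Finset.prod_mul_distrib]
        simp only [LinearMap.compAlternatingMap_apply]
        ring
      rw [h3, map_sum]
      refine Finset.sum_congr rfl fun r _ => ?_
      rw [AlternatingMap.smul_apply, smul_eq_mul]
      have h6 : ∀ (a : ℚ) (x : K), (a : K) * x = a • x := by
        intro a x
        rw [Algebra.smul_def, eq_ratCast]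
      rw [h6, map_smul, smul_eq_mul, mul_comm]
    rw [h2]
    refine Submodule.sum_mem _ fun r _ => Submodule.smul_mem _ _ (Submodule.subset_span ?_)
    refine (mem_wedges_iff _ _ _).2 ⟨_, fun k => ?_, rfl⟩
    exact isTate_component F₀ q 1 (B k) (hB k) _
  | zero =>
    have h2 : l.compAlternatingMap (res (0 : (K ⊗[ℚ] W) [⋀^Fin m × Fin 2]→ₗ[K] K)) = 0 := by
      ext w
      simp [res_apply]
    rw [h2]
    exact Submodule.zero_mem _
  | add G₁ G₂ _ _ ih₁ ih₂ =>
    have h2 : l.compAlternatingMap (res (G₁ + G₂)) =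
        l.compAlternatingMap (res G₁) + l.compAlternatingMap (res G₂) := by
      ext w
      simp [res_apply]
    rw [h2]
    exact Submodule.add_mem _ (ih₁ l) (ih₂ l)
  | smul a G₁ _ ih₁ =>
    have h2 : l.compAlternatingMap (res (a • G₁)) =
        (l.comp (LinearMap.mulLeft ℚ a)).compAlternatingMap (res G₁) := by
      ext w
      simp [res_apply]
    rw [h2]
    exact ih₁ _

/-- Generation over some field implies generation over `ℚ`. -/
theorem generated_down (h : TateGenerated (F₀.baseChange K) q) : TateGenerated F₀ q := by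
  intro m g hg
  obtain ⟨G, hG⟩ := exists_ext_rat (K := K) g
  have h1 := h m G (isTate_ext F₀ q m g G hG hg)
  obtain ⟨l, hl⟩ := LinearMap.exists_leftInverse_of_injective (Algebra.linearMap ℚ K)
    (LinearMap.ker_eq_bot.2 (algebraMap ℚ K).injective)
  have h2 := component_mem_span F₀ q G h1 l
  have h3 : l.compAlternatingMap (res G) = g := by
    ext w
    rw [LinearMap.compAlternatingMap_apply, hG]
    have h4 := LinearMap.congr_fun hl (g w)
    rw [LinearMap.comp_apply, Algebra.linearMap_apply, eq_ratCast] at h4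
    exact h4
  rwa [h3] at h2

end

end Pool.Agent.N90.TD
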