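import Mathlib

/-!
# Tate classes on products of ordinary abelian varieties over finite fields: definitions
-/

namespace Pool.Agent.N90.TD

open NumberField
open scoped TensorProduct

/-- By the theorem of Honda and Tate, a simple ordinary abelian variety `A` over the field with
`q = p ^ a` elements, all of whose endomorphisms over the algebraic closure are defined over the
field and which is simple over the algebraic closure, is given, up to isogeny, by the CM field
`E = End(A) ⊗ ℚ`, of degree `2 dim A`, and the Frobenius endomorphism `π ∈ E`: an algebraic integer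
all of whose complex absolute values are `√q`, all of whose `p`-adic absolute values are those of
`1` and of `q` (ordinarity), and such that `E = ℚ (π ^ s)` for all `s ≥ 1`. A family `(E i, π i)` of
such pairs, for the same `q`, corresponds to a family of abelian varieties; these are pairwise not
isogenous over the algebraic closure if and only if `π i ^ s` and `π i' ^ s` are not conjugate for
`i ≠ i'` and `s ≥ 1`. The last two properties are expressed together by `separated`. -/
structure IsOrdinaryFamily (p a : ℕ) [Fact p.Prime] {ι : Type} (E : ι → Type)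
    [∀ i, Field (E i)] (π : ∀ i, E i) : Prop where
  pos : 0 < a
  integral : ∀ i, IsIntegral ℤ (π i)
  weil : ∀ i (φ : E i →+* ℂ), ‖φ (π i)‖ ^ 2 = (p : ℝ) ^ a
  ordinary : ∀ i (ψ : E i →+* PadicAlgCl p),
    ‖ψ (π i)‖ = 1 ∨ ‖ψ (π i)‖ = ‖(p : PadicAlgCl p) ^ a‖
  separated : ∀ s : ℕ, 0 < s → ∀ (i i' : ι) (φ : E i →+* ℂ) (φ' : E i' →+* ℂ),
    φ (π i ^ s) = φ' (π i' ^ s) → (⟨i, φ⟩ : Σ i, (E i →+* ℂ)) = ⟨i', φ'⟩

/-- Let `V` be the rational Tate module of an abelian variety `A` over the field with `q` elements,
with coefficients in `K` (for example `K = ℚ_ℓ`), and `F` the action of the Frobenius endomorphism.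
The elements of `H^{2m}(A, K)` are the alternating forms in `2 m` variables on `V`. Such a form `f`
is a *Tate class* over some finite extension, of degree `s`, if the endomorphism `F ^ s` multiplies
it by `q ^ {s m}`. -/
def IsTate {K V : Type} [Field K] [AddCommGroup V] [Module K V] (F : V →ₗ[K] V) (q : ℕ)
    {κ : Type} (m : ℕ) (f : V [⋀^κ]→ₗ[K] K) : Prop :=
  ∃ s : ℕ, 0 < s ∧ ∀ v : κ → V, f (fun k => (F ^ s) (v k)) = (q : K) ^ (m * s) * f v

/-- The products `B 0 ∧ ... ∧ B (m - 1)` of Tate classes of degree two (by Tate's theorem these are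
the linear combinations of classes of divisors over finite extensions). -/
def wedges {K V : Type} [Field K] [AddCommGroup V] [Module K V] (F : V →ₗ[K] V) (q m : ℕ) :
    Set (V [⋀^Fin m × Fin 2]→ₗ[K] K) :=
  {g | ∃ B : Fin m → V [⋀^Fin 2]→ₗ[K] K, (∀ l, IsTate F q 1 (B l)) ∧
    ∀ v, g v = ∑ σ : Equiv.Perm (Fin m × Fin 2), ((Equiv.Perm.sign σ : ℤ) : K) *
      ∏ l, B l ![v (σ (l, 0)), v (σ (l, 1))]}

/-- All Tate classes of degree `2 m`, over all finite extensions of the ground field, are linear
combinations of products of classes of divisors. (So the Tate conjecture holds for `A` in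
codimension `m`, over all finite extensions, and there are no exotic Tate classes.) -/
def TateGeneratedIn {K V : Type} [Field K] [AddCommGroup V] [Module K V] (F : V →ₗ[K] V)
    (q m : ℕ) : Prop :=
  ∀ f : V [⋀^Fin m × Fin 2]→ₗ[K] K, IsTate F q m f → f ∈ Submodule.span K (wedges F q m)

/-- This holds in all degrees. -/
def TateGenerated {K V : Type} [Field K] [AddCommGroup V] [Module K V] (F : V →ₗ[K] V) (q : ℕ) :
    Prop :=
  ∀ m : ℕ, TateGeneratedIn F q m

/-- The rational Tate module of the product, over `j : J`, of the abelian varieties given by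
`(E (t j), π (t j))`. -/
abbrev TateModule (K : Type) [Field K] [CharZero K] {ι J : Type} (E : ι → Type)
    [∀ i, Field (E i)] [∀ i, CharZero (E i)] (t : J → ι) : Type :=
  K ⊗[ℚ] (∀ j, E (t j))

/-- The action of the Frobenius endomorphism: multiplication by `π (t j)` on the factor `j`. -/
noncomputable def frob (K : Type) [Field K] [CharZero K] {ι J : Type} {E : ι → Type}
    [∀ i, Field (E i)] [∀ i, CharZero (E i)] (π : ∀ i, E i) (t : J → ι) :
    TateModule K E t →ₗ[K] TateModule K E t :=
  (LinearMap.mulLeft ℚ (fun j => π (t j) : ∀ j, E (t j))).baseChange K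

end Pool.Agent.N90.TD
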