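import Pool.Agent.N90.TD.Defs
import Pool.Agent.H204R3.CM.Alt

/-!
# Extension of scalars
-/

set_option autoImplicit false
set_option linter.unusedSectionVars false

namespace Pool.Agent.N90.TD

open Module Equiv
open scoped TensorProduct

noncomputable section

variable {K : Type} [Field K] [CharZero K] {W : Type} [AddCommGroup W] [Module ℚ W]
  [FiniteDimensional ℚ W]

/-- the restriction of a form to the rational structure -/
def res {n : Type} (G : (K ⊗[ℚ] W) [⋀^n]→ₗ[K] K) : W [⋀^n]→ₗ[ℚ] K :=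
  ({ G.toMultilinearMap.restrictScalars ℚ with
      map_eq_zero_of_eq' := G.map_eq_zero_of_eq' } :
    (K ⊗[ℚ] W) [⋀^n]→ₗ[ℚ] K).compLinearMap (TensorProduct.mk ℚ K W 1)

theorem res_apply {n : Type} (G : (K ⊗[ℚ] W) [⋀^n]→ₗ[K] K) (w : n → W) :
    res G w = G (fun k => 1 ⊗ₜ[ℚ] w k) := rfl

theorem res_inj {n : Type} [Finite n] {G G' : (K ⊗[ℚ] W) [⋀^n]→ₗ[K] K}
    (h : ∀ w : n → W, res G w = res G' w) : G = G' := by
  refine Basis.ext_alternating ((Module.finBasis ℚ W).baseChange K) fun v _ => ?_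
  have h1 := h (fun k => Module.finBasis ℚ W (v k))
  rw [res_apply, res_apply] at h1
  simp only [Basis.baseChange_apply]
  exact h1

theorem expand {n : Type} [Fintype n] [DecidableEq n] {d : ℕ} (b : Basis (Fin d) ℚ W)
    (g : MultilinearMap ℚ (fun _ : n => W) K) (w : n → W) :
    g w = ∑ r : n → Fin d, (∏ l, b.coord (r l) (w l)) • g (fun l => b (r l)) := by
  have h3 : w = fun l => ∑ s, b.coord s (w l) • b s := by
    funext l
    exact (b.sum_repr (w l)).symm
  conv_lhs => rw [h3]
  rw [MultilinearMap.map_sum]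
  refine Finset.sum_congr rfl fun r _ => ?_
  rw [MultilinearMap.map_smul_univ]

theorem exists_ext {n : Type} [Fintype n] [DecidableEq n] (g : W [⋀^n]→ₗ[ℚ] K) :
    ∃ G : (K ⊗[ℚ] W) [⋀^n]→ₗ[K] K, res G = g := by
  let b := Module.finBasis ℚ W
  let B := b.baseChange K
  let M : MultilinearMap K (fun _ : n => K ⊗[ℚ] W) K :=
    ∑ r : n → Fin (finrank ℚ W), g (fun l => b (r l)) •
      (MultilinearMap.mkPiAlgebra K n K).compLinearMap (fun l => B.coord (r l))
  have hM : ∀ w : n → W, M (fun k => 1 ⊗ₜ[ℚ] w k) = g w := by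
    intro w
    have h1 := expand b g.toMultilinearMap w
    have h2 : g w = ∑ r : n → Fin (finrank ℚ W), (∏ l, b.coord (r l) (w l)) •
      g (fun l => b (r l)) := h1
    rw [h2]
    simp only [M, sum_apply, smul_apply,
      MultilinearMap.compLinearMap_apply, MultilinearMap.mkPiAlgebra_apply]
    refine Finset.sum_congr rfl fun r _ => ?_
    have h3 : ∀ l, B.coord (r l) (1 ⊗ₜ[ℚ] w l) = ((b.coord (r l) (w l) : ℚ) : K) := by
      intro l
      simp only [B, Basis.coord_apply, Basis.baseChange_repr_tmul]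
      rw [Algebra.smul_def, mul_one, eq_ratCast]
    rw [Finset.prod_congr rfl (fun l _ => h3 l), smul_eq_mul, Algebra.smul_def, eq_ratCast,
      Rat.cast_prod, mul_comm]
  let A := MultilinearMap.alternatization M
  refine ⟨(((Fintype.card n).factorial : K)⁻¹) • A, ?_⟩
  ext w
  rw [res_apply, AlternatingMap.smul_apply]
  have h1 : A (fun k => 1 ⊗ₜ[ℚ] w k) = ((Fintype.card n).factorial : K) * g w := by
    change MultilinearMap.alternatization M _ = _
    rw [MultilinearMap.alternatization_apply]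
    have h2 : ∀ σ : Perm n, Perm.sign σ • M.domDomCongr σ (fun k => 1 ⊗ₜ[ℚ] w k) = g w := by
      intro σ
      rw [MultilinearMap.domDomCongr_apply]
      have h3 := hM (fun k => w (σ k))
      rw [h3]
      have h4 := g.map_perm w σ
      have h5 : g (fun k => w (σ k)) = Perm.sign σ • g w := h4
      rw [h5, smul_smul, Int.units_mul_self, one_smul]
    rw [Finset.sum_congr rfl (fun σ _ => h2 σ), Finset.sum_const, Finset.card_univ,
      Fintype.card_perm, nsmul_eq_mul]
  rw [h1, smul_eq_mul, ← mul_assoc, inv_mul_cancel₀, one_mul]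
  exact Nat.cast_ne_zero.2 (Nat.factorial_ne_zero _)

/-- a form with values in `K` is a combination of rational forms -/
theorem exists_components {n : Type} [Fintype n] [DecidableEq n] (g : W [⋀^n]→ₗ[ℚ] K) :
    ∃ (d : ℕ) (c : Fin d → K) (l : Fin d → (K →ₗ[ℚ] ℚ)),
      ∀ w, g w = ∑ i, c i * ((l i (g w) : ℚ) : K) := by
  let b := Module.finBasis ℚ W
  let U : Submodule ℚ K := Submodule.span ℚ (Set.range fun r : n → Fin (finrank ℚ W) =>
    g (fun l => b (r l)))
  have hU : ∀ w, g w ∈ U := by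
    intro w
    have h2 : g w = ∑ r : n → Fin (finrank ℚ W), (∏ l, b.coord (r l) (w l)) •
      g (fun l => b (r l)) := expand b g.toMultilinearMap w
    rw [h2]
    exact Submodule.sum_mem _ fun r _ => Submodule.smul_mem _ _ (Submodule.subset_span ⟨r, rfl⟩)
  have hfin : FiniteDimensional ℚ U := FiniteDimensional.span_of_finite ℚ (Set.finite_range _)
  let e := Module.finBasis ℚ U
  have h1 : ∀ i, ∃ l : K →ₗ[ℚ] ℚ, l.comp U.subtype = e.coord i := fun i =>
    LinearMap.exists_extend (e.coord i)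
  choose l hl using h1
  refine ⟨finrank ℚ U, fun i => (e i : K), l, fun w => ?_⟩
  have h2 := e.sum_repr ⟨g w, hU w⟩
  have h3 := congrArg (U.subtype) h2
  rw [map_sum] at h3
  have h4 : U.subtype ⟨g w, hU w⟩ = g w := rfl
  rw [h4] at h3
  rw [← h3]
  refine Finset.sum_congr rfl fun i _ => ?_
  rw [map_smul, Algebra.smul_def, eq_ratCast, mul_comm]
  congr 2
  have h5 := LinearMap.congr_fun (hl i) ⟨g w, hU w⟩
  have h6 : l i (g w) = e.repr ⟨g w, hU w⟩ i := h5
  rw [← h6]
  exact congrArg (l i) h3.symm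

end

end Pool.Agent.N90.TD
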