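import Pool.Agent.N90.TD.Base
import Pool.Agent.N90.HG.Conv
import Pool.Agent.H485R3.Kron
import Pool.Agent.H485R3.K3Type
import Pool.Agent.W547.TF.Main
import Pool.Agent.H977R3.CM.Aut

/-!
# Tate classes of ordinary abelian varieties and Hodge classes of their canonical lifts
-/

set_option autoImplicit false
set_option linter.unusedSectionVars false

namespace Pool.Agent.N90.TD

open NumberField Module Equiv Pool.Agent.H204R3.CM Pool.Agent.H977R3.CM Pool.Agent.W546.GHC
  Pool.Agent.W547.KB Pool.Agent.W530.NF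
open scoped TensorProduct

noncomputable section

/-- Kronecker's theorem. -/
theorem root_of_unity {L : Type} [Field L] [NumberField L] [IsGalois ℚ L] (x : L)
    (h0 : ∀ φ : L →+* ℂ, ‖φ x‖ = 1)
    (hl : ∀ (l : ℕ) [Fact l.Prime] (e : L →+* PadicAlgCl l), ‖e x‖ = 1) :
    ∃ s : ℕ, 0 < s ∧ x ^ s = 1 := by
  refine Pool.Agent.H485R3.pow_eq_one_of_norm x ?_ fun φ => h0 (φ : L →+* ℂ)
  exact Pool.Agent.H485R3.isIntegral_of_norm_le x fun l _ e => (hl l (e : L →+* PadicAlgCl l)).le

/-- complex embeddings of a Galois field -/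
theorem exists_comp {L : Type} [Field L] [NumberField L] [IsGalois ℚ L] (φ₀ φ : L →+* ℂ) :
    ∃ g : L ≃ₐ[ℚ] L, φ = φ₀.comp (g : L →+* L) := by
  obtain ⟨τ, hτ⟩ := ComplexEmbedding.exists_comp_symm_eq_of_comp_eq (k := ℚ) φ₀ φ
    (Subsingleton.elim _ _)
  exact ⟨τ.symm, hτ.symm⟩

variable {p a : ℕ} [Fact p.Prime] {ι : Type} {E : ι → Type} [∀ i, Field (E i)]
  [∀ i, NumberField (E i)] [∀ i, IsCMField (E i)] {π : ∀ i, E i}
  (hπ : IsOrdinaryFamily p a E π) (ν : PadicAlgCl p ≃+* ℂ)

/-- the CM types of the canonical lifts -/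
def typ (π : ∀ i, E i) (ν : PadicAlgCl p ≃+* ℂ) (i : ι) : Set (E i →+* ℂ) :=
  {φ | ‖ν.symm (φ (π i))‖ < 1}

theorem norm_q_lt (ha : 0 < a) : ‖(p : PadicAlgCl p) ^ a‖ < 1 := by
  rw [norm_pow]
  exact pow_lt_one₀ (norm_nonneg _) (Pool.Agent.H485R3.norm_p_lt p) ha.ne'

theorem norm_q_pos : 0 < ‖(p : PadicAlgCl p) ^ a‖ := by
  rw [norm_pos_iff]
  exact pow_ne_zero _ (Nat.cast_ne_zero.2 (Fact.out : p.Prime).ne_zero)

include hπ in
theorem slope_one (i : ι) (φ : E i →+* ℂ) (hφ : φ ∈ typ π ν i) :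
    ‖ν.symm (φ (π i))‖ = ‖(p : PadicAlgCl p) ^ a‖ := by
  have h1 := hπ.ordinary i ((ν.symm : ℂ →+* PadicAlgCl p).comp φ)
  have h2 : ‖ν.symm (φ (π i))‖ < 1 := hφ
  exact h1.resolve_left h2.ne

include hπ in
theorem slope_zero (i : ι) (φ : E i →+* ℂ) (hφ : φ ∉ typ π ν i) :
    ‖ν.symm (φ (π i))‖ = 1 := by
  have h1 := hπ.ordinary i ((ν.symm : ℂ →+* PadicAlgCl p).comp φ)
  refine h1.resolve_right fun h2 => hφ ?_
  change ‖ν.symm (φ (π i))‖ < 1
  have h3 : ‖ν.symm (φ (π i))‖ = ‖(p : PadicAlgCl p) ^ a‖ := h2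
  rw [h3]
  exact norm_q_lt hπ.pos

include hπ in
theorem mul_conj (i : ι) : π i * IsCMField.complexConj (E i) (π i) = (p : E i) ^ a := by
  obtain ⟨φ⟩ : Nonempty (E i →+* ℂ) := inferInstance
  apply φ.injective
  rw [map_mul, IsCMField.complexEmbedding_complexConj, Complex.mul_conj, map_pow, map_natCast,
    Complex.normSq_eq_norm_sq, hπ.weil i φ]
  push_cast
  rfl

include hπ in
theorem isCMType_typ (i : ι) : IsCMType (typ π ν i) := by
  intro φ
  have h1 : ‖ν.symm (φ (π i))‖ * ‖ν.symm (ComplexEmbedding.conjugate φ (π i))‖ =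
      ‖(p : PadicAlgCl p) ^ a‖ := by
    have h2 : ComplexEmbedding.conjugate φ (π i) = φ (IsCMField.complexConj (E i) (π i)) := by
      rw [ComplexEmbedding.conjugate_coe_eq]
      rw [IsCMField.complexEmbedding_complexConj]
    rw [h2, ← norm_mul, ← map_mul, ← map_mul, mul_conj hπ, map_pow, map_natCast, map_pow,
      map_natCast]
  have hlt := norm_q_lt (p := p) hπ.pos
  have hpos := norm_q_pos (p := p) (a := a)
  constructor
  · intro h2 h3
    rw [slope_one hπ ν i φ h2, slope_one hπ ν i _ h3] at h1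
    have h4 := mul_lt_mul_of_pos_left hlt hpos
    rw [h1, mul_one] at h4
    exact lt_irrefl _ h4
  · intro h2
    by_contra h3
    rw [slope_zero hπ ν i φ h3, slope_zero hπ ν i _ h2, one_mul] at h1
    exact hlt.ne h1.symm

include hπ in
theorem norm_other (i : ι) (l : ℕ) [Fact l.Prime] (hl : l ≠ p) (e : E i →+* PadicAlgCl l) :
    ‖e (π i)‖ = 1 := by
  have hint := hπ.integral i
  have h1 : ‖e (π i)‖ ≤ 1 :=
    Pool.Agent.H485R3.norm_int_le l e (⟨π i, hint⟩ : 𝓞 (E i))
  have h2 : ‖e (IsCMField.complexConj (E i) (π i))‖ ≤ 1 := by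
    have h3 : IsIntegral ℤ (IsCMField.complexConj (E i) (π i)) :=
      hint.map ((IsCMField.complexConj (E i) : E i →+* E i).toIntAlgHom)
    exact Pool.Agent.H485R3.norm_int_le l e (⟨_, h3⟩ : 𝓞 (E i))
  have h3 : ‖e (π i)‖ * ‖e (IsCMField.complexConj (E i) (π i))‖ = 1 := by
    rw [← norm_mul, ← map_mul, mul_conj hπ, map_pow, map_natCast, norm_pow]
    have h4 : ‖((p : ℕ) : PadicAlgCl l)‖ = 1 := by
      have h5 : ((p : ℕ) : PadicAlgCl l) = algebraMap ℚ_[l] (PadicAlgCl l) (p : ℚ_[l]) := by simp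
      rw [h5, PadicAlgCl.norm_extends]
      rw [Padic.norm_natCast_eq_one_iff]
      exact (Nat.coprime_primes (Fact.out : l.Prime) (Fact.out : p.Prime)).2 hl
    rw [h4, one_pow]
  have hpos : 0 < ‖e (π i)‖ := by
    rcases (norm_nonneg (e (π i))).eq_or_lt with h4 | h4
    · rw [← h4, zero_mul] at h3
      exact absurd h3 zero_ne_one
    · exact h4
  refine le_antisymm h1 ?_
  calc (1 : ℝ) = ‖e (π i)‖ * ‖e (IsCMField.complexConj (E i) (π i))‖ := h3.symm
    _ ≤ ‖e (π i)‖ * 1 := mul_le_mul_of_nonneg_left h2 hpos.le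
    _ = ‖e (π i)‖ := mul_one _

section closure

variable {L : Type} [Field L] [NumberField L] [IsGalois ℚ L] (j : L →+* ℂ)

include hπ in
/-- The types are separated. -/
theorem separated_typ (h : ∀ i, ∀ ψ : E i →+* ℂ, ∃ φ : E i →+* L, j.comp φ = ψ) :
    Separated (typ π ν) := by
  rintro ⟨i, ψ⟩ ⟨i', ψ'⟩ hxy
  obtain ⟨φ, rfl⟩ := h i ψ
  obtain ⟨φ', rfl⟩ := h i' ψ'
  have hne' : φ' (π i') ≠ 0 := by
    intro h0
    have h1 := hπ.weil i' (j.comp φ')
    rw [RingHom.comp_apply, h0, map_zero, norm_zero] at h1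
    have h2 : (0 : ℝ) < (p : ℝ) ^ a := by
      have := (Fact.out : p.Prime).pos
      positivity
    rw [← h1] at h2
    norm_num at h2
  let x : L := φ (π i) / φ' (π i')
  have hx : ∃ s : ℕ, 0 < s ∧ x ^ s = 1 := by
    apply root_of_unity
    · intro θ
      have h1 := hπ.weil i (θ.comp φ)
      have h2 := hπ.weil i' (θ.comp φ')
      rw [← h2] at h1
      have h3 : ‖θ (φ (π i))‖ = ‖θ (φ' (π i'))‖ :=
        (sq_eq_sq₀ (norm_nonneg _) (norm_nonneg _)).1 h1
      simp only [x]
      rw [map_div₀, norm_div, h3]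
      exact div_self (norm_ne_zero_iff.2 ((map_ne_zero θ).2 hne'))
    · intro l _ e
      simp only [x]
      rw [map_div₀, norm_div]
      by_cases hl : l = p
      · subst hl
        obtain ⟨g, hg⟩ := exists_comp j ((ν : PadicAlgCl l →+* ℂ).comp e)
        obtain ⟨σ, hσ⟩ := exists_aut j (g : L ≃+* L)
        have h1 : ∀ y : L, e y = ν.symm (σ (j y)) := by
          intro y
          rw [hσ]
          have h2 := RingHom.congr_fun hg y
          have h3 : ν (e y) = j (g y) := h2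
          have h4 : j ((g : L ≃+* L) y) = j (g y) := rfl
          rw [h4, ← h3, RingEquiv.symm_apply_apply]
        have h5 := hxy σ
        rw [h1, h1]
        have h6 : ‖ν.symm (σ (j (φ (π i))))‖ = ‖ν.symm (σ (j (φ' (π i'))))‖ := by
          by_cases h7 : (σ : ℂ →+* ℂ).comp (j.comp φ) ∈ typ π ν i
          · have h8 := slope_one hπ ν i _ h7
            have h9 := slope_one hπ ν i' _ (h5.1 h7)
            exact h8.trans h9.symm
          · have h8 := slope_zero hπ ν i _ h7
            have h9 := slope_zero hπ ν i' _ (fun h10 => h7 (h5.2 h10))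
            exact h8.trans h9.symm
        rw [h6]
        refine div_self (norm_ne_zero_iff.2 ?_)
        rw [map_ne_zero, map_ne_zero, map_ne_zero]
        exact hne'
      · have h1 := norm_other hπ i l hl (e.comp φ)
        have h2 := norm_other hπ i' l hl (e.comp φ')
        rw [RingHom.comp_apply] at h1 h2
        rw [h1, h2, div_one]
  obtain ⟨s, hs, hxs⟩ := hx
  refine hπ.separated s hs i i' (j.comp φ) (j.comp φ') ?_
  rw [div_pow, div_eq_one_iff_eq (pow_ne_zero _ hne')] at hxs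
  rw [RingHom.comp_apply, RingHom.comp_apply, map_pow φ, map_pow φ', hxs]

end closure

/-- the Frobenius endomorphism on the rational structure -/
def F0 {J : Type} (π : ∀ i, E i) (t : J → ι) : (∀ b, E (t b)) →ₗ[ℚ] (∀ b, E (t b)) :=
  LinearMap.mulLeft ℚ (fun b => π (t b) : ∀ b, E (t b))

theorem F0_pow {J : Type} (t : J → ι) (s : ℕ) (w : ∀ b, E (t b)) :
    (F0 π t ^ s) w = (fun b => π (t b)) ^ s * w := by
  induction s with
  | zero =>
    rw [pow_zero, pow_zero, one_mul]
    rfl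
  | succ s ih =>
    rw [pow_succ', Module.End.mul_apply, ih, pow_succ', mul_assoc]
    rfl

section closure

variable {L : Type} [Field L] [NumberField L] [IsGalois ℚ L] (j : L →+* ℂ)

include hπ in
theorem word_root {J : Type} [Fintype J] (t : J → ι) {κ : Type} [Fintype κ] (m : ℕ)
    (hm : Fintype.card κ = 2 * m) (I : κ → XX E t L)
    (hI : ∀ σ : L ≃ₐ[ℚ] L,
      ∑ l, (open Classical in if j.comp (σ • (I l).2) ∈ typ π ν (t (I l).1) then (1 : ℤ) else -1) = 0) :
    ∃ s : ℕ, 0 < s ∧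
      ((∏ l, (I l).2 (π (t (I l).1))) / ((p : L) ^ a) ^ m) ^ s = 1 := by
  classical
  have hp : p.Prime := Fact.out
  apply root_of_unity
  · intro θ
    have h1 : ‖θ ((∏ l, (I l).2 (π (t (I l).1))) / ((p : L) ^ a) ^ m)‖ ^ 2 = 1 := by
      rw [map_div₀, norm_div, map_prod, norm_prod, div_pow, ← Finset.prod_pow]
      have h2 : ∀ l, ‖θ ((I l).2 (π (t (I l).1)))‖ ^ 2 = (p : ℝ) ^ a := fun l =>
        hπ.weil _ (θ.comp (I l).2)
      rw [Finset.prod_congr rfl (fun l _ => h2 l), Finset.prod_const, Finset.card_univ, hm,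
        map_pow, map_pow, map_natCast, norm_pow, norm_pow, Complex.norm_natCast, ← pow_mul,
        mul_comm 2 m, pow_mul, pow_mul, ← pow_mul, ← pow_mul]
      apply div_self
      have := hp.pos
      positivity
    have h3 : ‖θ ((∏ l, (I l).2 (π (t (I l).1))) / ((p : L) ^ a) ^ m)‖ ^ 2 = 1 ^ 2 := by
      rw [h1, one_pow]
    exact (sq_eq_sq₀ (norm_nonneg _) zero_le_one).1 h3
  · intro l _ e
    rw [map_div₀, norm_div, map_prod, norm_prod]
    by_cases hl : l = p
    · subst hl
      obtain ⟨g, hg⟩ := exists_comp j ((ν : PadicAlgCl l →+* ℂ).comp e)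
      have h1 : ∀ y : L, e y = ν.symm (j (g y)) := by
        intro y
        have h2 := RingHom.congr_fun hg y
        have h3 : ν (e y) = j (g y) := h2
        rw [← h3, RingEquiv.symm_apply_apply]
      have h2 : ∀ k, ‖e ((I k).2 (π (t (I k).1)))‖ =
          if j.comp (g • (I k).2) ∈ typ π ν (t (I k).1) then ‖(l : PadicAlgCl l) ^ a‖ else 1 := by
        intro k
        have h4 : j (g ((I k).2 (π (t (I k).1)))) = (j.comp (g • (I k).2)) (π (t (I k).1)) := rfl
        rw [h1, h4]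
        by_cases h3 : j.comp (g • (I k).2) ∈ typ π ν (t (I k).1)
        · rw [if_pos h3]
          exact slope_one hπ ν (t (I k).1) (j.comp (g • (I k).2)) h3
        · rw [if_neg h3]
          exact slope_zero hπ ν (t (I k).1) (j.comp (g • (I k).2)) h3
      rw [Finset.prod_congr rfl (fun k _ => h2 k), Finset.prod_ite, Finset.prod_const,
        Finset.prod_const_one, mul_one, map_pow, map_pow, map_natCast,
        norm_pow ((l : PadicAlgCl l) ^ a) m]
      have h3 := hI g
      have h4 : (Finset.univ.filter fun k => j.comp (g • (I k).2) ∈ typ π ν (t (I k).1)).card =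
          m := by
        rw [Finset.sum_ite, Finset.sum_const, Finset.sum_const, nsmul_eq_mul, nsmul_eq_mul] at h3
        have h5 := Finset.card_filter_add_card_filter_not (s := Finset.univ)
          (fun k => j.comp (g • (I k).2) ∈ typ π ν (t (I k).1))
        rw [Finset.card_univ, hm] at h5
        omega
      rw [h4]
      exact div_self (pow_ne_zero _ (norm_q_pos (p := l) (a := a)).ne')
    · have h2 : ∀ k, ‖e ((I k).2 (π (t (I k).1)))‖ = 1 := fun k =>
        norm_other hπ _ l hl (e.comp (I k).2)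
      rw [Finset.prod_congr rfl (fun k _ => h2 k), Finset.prod_const_one, map_pow, map_pow,
        map_natCast, norm_pow, norm_pow]
      have h4 : ‖((p : ℕ) : PadicAlgCl l)‖ = 1 := by
        have h5 : ((p : ℕ) : PadicAlgCl l) = algebraMap ℚ_[l] (PadicAlgCl l) (p : ℚ_[l]) := by simp
        rw [h5, PadicAlgCl.norm_extends]
        rw [Padic.norm_natCast_eq_one_iff]
        exact (Nat.coprime_primes (Fact.out : l.Prime) (Fact.out : p.Prime)).2 hl
      rw [h4, one_pow, one_pow, div_one]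

include hπ in
/-- Hodge classes of the canonical lift are Tate classes. -/
theorem tate_of_hodge (h : ∀ i, ∀ ψ : E i →+* ℂ, ∃ φ : E i →+* L, j.comp φ = ψ)
    {J : Type} [Fintype J] (t : J → ι) {κ : Type} [Fintype κ] [DecidableEq κ] (m : ℕ)
    (hm : Fintype.card κ = 2 * m) (f : (∀ b, E (t b)) [⋀^κ]→ₗ[ℚ] ℚ)
    (hf : IsHodge (per (typ π ν) t) f) : IsTate (F0 π t) (p ^ a) m f := by
  classical
  have hp : p.Prime := Fact.out
  obtain ⟨c, hc⟩ := form_coeff t j h f.toMultilinearMap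
  obtain ⟨T, hT, hTall⟩ := Pool.Agent.H485R3.exists_torsion L
  refine ⟨T, hT, fun v => ?_⟩
  have hword : ∀ I : κ → XX E t L, c I * (∏ l, (I l).2 (π (t (I l).1))) ^ T =
      c I * (((p : L) ^ a) ^ m) ^ T := by
    intro I
    by_cases hI : c I = 0
    · rw [hI, zero_mul, zero_mul]
    · have h1 := balanced_of_hodge t j (isCMType_typ hπ ν) h f hf c hc I hI
      obtain ⟨s, hs, hs1⟩ := word_root hπ ν j t m hm I h1
      have h2 := hTall _ ⟨s, hs, hs1⟩
      have h3 : (((p : L) ^ a) ^ m) ^ T ≠ 0 := by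
        have : (p : L) ≠ 0 := Nat.cast_ne_zero.2 hp.ne_zero
        positivity
      rw [div_pow, div_eq_one_iff_eq h3] at h2
      rw [h2]
  have h1 : ((f (fun k => (F0 π t ^ T) (v k)) : ℚ) : L) =
      (((((p ^ a : ℕ) : ℚ)) ^ (m * T) * f v : ℚ) : L) := by
    rw [show f (fun k => (F0 π t ^ T) (v k)) =
      f.toMultilinearMap (fun k => (F0 π t ^ T) (v k)) from rfl, hc]
    rw [Rat.cast_mul, show f v = f.toMultilinearMap v from rfl, hc, Finset.mul_sum]
    refine Finset.sum_congr rfl fun I _ => ?_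
    have h2 : ∀ l, chi E t L ((F0 π t ^ T) (v l)) (I l) =
        ((I l).2 (π (t (I l).1))) ^ T * chi E t L (v l) (I l) := by
      intro l
      rw [F0_pow]
      change (I l).2 (((fun b => π (t b)) ^ T * v l) (I l).1) = _
      rw [Pi.mul_apply, Pi.pow_apply, map_mul, map_pow]
      rfl
    rw [Finset.prod_congr rfl (fun l _ => h2 l), Finset.prod_mul_distrib, Finset.prod_pow,
      ← mul_assoc, hword I]
    push_cast
    ring
  exact_mod_cast h1

end closure

include hπ in
/-- Tate classes are Hodge classes of the canonical lift. -/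
theorem hodge_of_tate {J : Type} [Fintype J] (t : J → ι) {κ : Type} [Fintype κ] [Nonempty ι]
    (m : ℕ) (hm : Fintype.card κ = 2 * m) (f : (∀ b, E (t b)) [⋀^κ]→ₗ[ℚ] ℚ)
    (hf : IsTate (F0 π t) (p ^ a) m f) : IsHodge (per (typ π ν) t) f := by
  have hp : p.Prime := Fact.out
  obtain ⟨s, hs, hfs⟩ := hf
  let X : CMAV := ⟨J, fun b => ⟨E (t b), typ π ν (t b), isCMType_typ hπ ν (t b)⟩⟩
  let πX : X.H1 := fun b => π (t b)
  have hST : ShimuraTaniyama X (Pool.Agent.W547.TF.absC p ν) (p ^ a) πX := by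
    constructor
    · intro b φ hφ
      rw [Pool.Agent.W547.TF.absC_cast]
      exact slope_one hπ ν (t b) φ hφ
    · intro b φ hφ
      exact slope_zero hπ ν (t b) φ hφ
  have hw : Pool.Agent.W547.TF.absC p ν ((p ^ a : ℕ) : ℂ) < 1 := by
    rw [Pool.Agent.W547.TF.absC_cast]
    exact norm_q_lt hπ.pos
  obtain ⟨i₀⟩ := ‹Nonempty ι›
  let f' : X.H1 [⋀^κ]→ₗ[ℚ] ℚ := f
  obtain ⟨r, c, g, hg, hsum⟩ := Pool.Agent.W547.TN.hodge_span X (Pool.Agent.W547.TF.absC p ν)
    (p ^ a) (pow_pos hp.pos a).ne' hw πX hST s m hs.ne' (by rw [Nat.card_eq_fintype_card, hm]) f'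
    (fun v => by
      have h1 := hfs v
      simp only [F0_pow] at h1
      exact h1) ⟨E i₀, typ π ν i₀, isCMType_typ hπ ν i₀⟩
  have h1 : f' = ∑ i, c i • g i := by
    ext v
    rw [alt_sum_apply, hsum v]
    refine Finset.sum_congr rfl fun i _ => ?_
    rw [AlternatingMap.smul_apply, smul_eq_mul, smul_eq_mul, mul_comm]
  have h2 : IsHodge X.per f' := by
    rw [h1]
    refine Finset.sum_induction _ (fun g => IsHodge X.per g) (fun _ _ h1 h2 => hodge_add h1 h2) ?_
      fun i _ => hodge_smul (c i) (hg i)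
    have h3 := hodge_smul (X := X) (κ := κ) 0 (f := f' - f') ⟨0, by
      intro v
      simp, by
      intro z _ u
      rfl⟩
    rwa [zero_smul] at h3
  exact h2

end

end Pool.Agent.N90.TD
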